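import Pool.Agent.W207.SW.SpecS

/-!
Project SW (helper207): boundary values of `GG` (third and fourth parts of S_GA) and the lower
bound near `Λ` (S_GB).
-/

set_option autoImplicit false

namespace Pool.Agent.W721.SW

open W207.SW Complex

lemma im_wlog (w : ℂ) : (w * Complex.log w).im = w.re * w.arg + w.im * Real.log ‖w‖ := by
  rw [Complex.mul_im, Complex.log_im, Complex.log_re]

lemma re_GG (Λ : ℝ) (z : ℂ) : (GG Λ z).re = -(1 / Real.pi) *
    (((z - Λ) * Complex.log (z - Λ)).im + ((z + Λ) * Complex.log (z + Λ)).im -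
      2 * (z * Complex.log z).im) := by
  unfold GG
  have h : (I / (Real.pi : ℂ)) = ((1 / Real.pi : ℝ) : ℂ) * I := by
    push_cast
    ring
  rw [h, mul_assoc, Complex.re_ofReal_mul, Complex.I_mul_re, Complex.sub_im, Complex.add_im]
  have h2 : (2 * (z * Complex.log z)).im = 2 * (z * Complex.log z).im := by
    have : (2 : ℂ) = ((2 : ℝ) : ℂ) := by norm_num
    rw [this, Complex.im_ofReal_mul]
  rw [h2]
  ring

lemma im_real (a : ℝ) : ((a : ℂ) * Complex.log (a : ℂ)).im = Real.pi * min a 0 := by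
  rw [im_wlog]
  simp only [Complex.ofReal_re, Complex.ofReal_im, zero_mul, add_zero]
  rcases lt_or_ge a 0 with h | h
  · rw [Complex.arg_ofReal_of_neg h, min_eq_left h.le]
    ring
  · rw [Complex.arg_ofReal_of_nonneg h, min_eq_right h]
    ring

theorem GA2 : ∀ Λ : ℝ, 0 < Λ → (∀ x : ℝ, (GG Λ x).re = max (Λ - |x|) 0) ∧
    (∀ y : ℝ, 0 < y → (GG Λ (y * I)).re ≤ Λ) := by
  intro Λ hΛ
  have hpi := Real.pi_pos
  constructor
  · intro x
    rw [re_GG]
    have e1 : ((x : ℂ) - (Λ : ℂ)) = ((x - Λ : ℝ) : ℂ) := by push_cast; rfl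
    have e2 : ((x : ℂ) + (Λ : ℂ)) = ((x + Λ : ℝ) : ℂ) := by push_cast; rfl
    rw [e1, e2, im_real, im_real, im_real]
    have e3 : -(1 / Real.pi) * (Real.pi * min (x - Λ) 0 + Real.pi * min (x + Λ) 0 -
        2 * (Real.pi * min x 0)) = -(min (x - Λ) 0) - min (x + Λ) 0 + 2 * min x 0 := by
      field_simp
      ring
    rw [e3]
    rcases lt_or_ge x 0 with h | h
    · rw [abs_of_neg h, min_eq_left h.le, min_eq_left (by linarith)]
      rcases le_total (x + Λ) 0 with h2 | h2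
      · rw [min_eq_left h2, max_eq_right (by linarith)]
        ring
      · rw [min_eq_right h2, max_eq_left (by linarith)]
        ring
    · rw [abs_of_nonneg h, min_eq_right h, min_eq_right (by linarith : 0 ≤ x + Λ)]
      rcases le_total (x - Λ) 0 with h2 | h2
      · rw [min_eq_left h2, max_eq_left (by linarith)]
        ring
      · rw [min_eq_right h2, max_eq_right (by linarith)]
        ring
  · intro y hy
    rw [re_GG, im_wlog, im_wlog, im_wlog]
    have r1 : ((y : ℂ) * I - (Λ : ℂ)).re = -Λ := by simp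
    have i1 : ((y : ℂ) * I - (Λ : ℂ)).im = y := by simp
    have r2 : ((y : ℂ) * I + (Λ : ℂ)).re = Λ := by simp
    have i2 : ((y : ℂ) * I + (Λ : ℂ)).im = y := by simp
    have r3 : ((y : ℂ) * I).re = 0 := by simp
    have i3 : ((y : ℂ) * I).im = y := by simp
    rw [r1, i1, r2, i2, r3, i3]
    have a1 : ((y : ℂ) * I - (Λ : ℂ)).arg ≤ Real.pi := Complex.arg_le_pi _
    have a2 : 0 ≤ ((y : ℂ) * I + (Λ : ℂ)).arg := Complex.arg_nonneg_iff.2 (by rw [i2]; exact hy.le)
    have n3 : ‖(y : ℂ) * I‖ = y := by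
      rw [norm_mul, Complex.norm_I, mul_one, Complex.norm_real, Real.norm_eq_abs, abs_of_pos hy]
    have n1 : y ≤ ‖(y : ℂ) * I - (Λ : ℂ)‖ := by
      have := Complex.abs_im_le_norm ((y : ℂ) * I - (Λ : ℂ))
      rw [i1, abs_of_pos hy] at this
      exact this
    have n2 : y ≤ ‖(y : ℂ) * I + (Λ : ℂ)‖ := by
      have := Complex.abs_im_le_norm ((y : ℂ) * I + (Λ : ℂ))
      rw [i2, abs_of_pos hy] at this
      exact this
    have l1 := Real.log_le_log hy n1
    have l2 := Real.log_le_log hy n2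
    rw [n3]
    have m1 := mul_le_mul_of_nonneg_left l1 hy.le
    have m2 := mul_le_mul_of_nonneg_left l2 hy.le
    have m3 := mul_le_mul_of_nonneg_left a1 hΛ.le
    have m4 := mul_nonneg hΛ.le a2
    have key : -(Real.pi * Λ) ≤ -Λ * ((y : ℂ) * I - (Λ : ℂ)).arg +
        y * Real.log ‖(y : ℂ) * I - (Λ : ℂ)‖ + (Λ * ((y : ℂ) * I + (Λ : ℂ)).arg +
        y * Real.log ‖(y : ℂ) * I + (Λ : ℂ)‖) - 2 * (0 * ((y : ℂ) * I).arg + y * Real.log y) := by
      linarith
    have e5 : Λ = -(1 / Real.pi) * (-(Real.pi * Λ)) := by field_simp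
    have := mul_le_mul_of_nonneg_left key (by positivity : 0 ≤ 1 / Real.pi)
    linarith

lemma re_arg_le (w : ℂ) (hw : 0 ≤ w.im) : w.re * w.arg ≤ w.im := by
  have h0 : 0 ≤ w.arg := Complex.arg_nonneg_iff.2 hw
  have h1 := Complex.norm_mul_cos_arg w
  have h2 := Complex.norm_mul_sin_arg w
  have hn := norm_nonneg w
  have key : w.arg * Real.cos w.arg ≤ Real.sin w.arg := by
    rcases lt_or_ge w.arg (Real.pi / 2) with h | h
    · have h3 := Real.le_tan h0 h
      have h4 : 0 < Real.cos w.arg := Real.cos_pos_of_mem_Ioo ⟨by linarith [Real.pi_pos], h⟩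
      rw [Real.tan_eq_sin_div_cos, le_div_iff₀ h4] at h3
      exact h3
    · have h3 : Real.cos w.arg ≤ 0 := Real.cos_nonpos_of_pi_div_two_le_of_le h (by
        linarith [Complex.arg_le_pi w, Real.pi_pos])
      have h4 : 0 ≤ Real.sin w.arg := Real.sin_nonneg_of_nonneg_of_le_pi h0 (Complex.arg_le_pi w)
      nlinarith
  calc w.re * w.arg = ‖w‖ * (w.arg * Real.cos w.arg) := by rw [← h1]; ring
    _ ≤ ‖w‖ * Real.sin w.arg := mul_le_mul_of_nonneg_left key hn
    _ = w.im := h2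

theorem GB : S_GB := by
  intro Λ hΛ
  have hpi := Real.pi_pos
  refine ⟨2 + 2 * Λ + Λ / 2 + 2 * |Real.log (Λ / 2)|, Λ / 2, by positivity, by positivity, ?_⟩
  intro z hz hr
  rw [re_GG, im_wlog, im_wlog, im_wlog]
  have i1 : (z - (Λ : ℂ)).im = z.im := by simp
  have i2 : (z + (Λ : ℂ)).im = z.im := by simp
  have c1 := re_arg_le (z - (Λ : ℂ)) (by rw [i1]; exact hz)
  have c2 := re_arg_le (z + (Λ : ℂ)) (by rw [i2]; exact hz)
  rw [i1] at c1
  rw [i2] at c2
  rw [i1, i2]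
  have hre : Λ / 2 ≤ z.re := by
    have h1 := Complex.abs_re_le_norm (z - (Λ : ℂ))
    have h2 : (z - (Λ : ℂ)).re = z.re - Λ := by simp
    rw [h2] at h1
    have h3 := (abs_le.1 (h1.trans hr)).1
    linarith
  have h3 : 0 ≤ z.re * z.arg := mul_nonneg (by linarith) (Complex.arg_nonneg_iff.2 hz)
  have h4 : Λ / 2 ≤ ‖z‖ := hre.trans ((le_abs_self _).trans (Complex.abs_re_le_norm z))
  have h5 : -|Real.log (Λ / 2)| ≤ Real.log ‖z‖ := by
    have := Real.log_le_log (by positivity) h4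
    have := neg_abs_le (Real.log (Λ / 2))
    linarith
  have h6 : ‖z + (Λ : ℂ)‖ ≤ 2 * Λ + Λ / 2 := by
    have : z + (Λ : ℂ) = (z - Λ) + ((2 * Λ : ℝ) : ℂ) := by push_cast; ring
    rw [this]
    refine (norm_add_le _ _).trans ?_
    rw [Complex.norm_real, Real.norm_eq_abs, abs_of_pos (by positivity)]
    linarith
  have h7 : Real.log ‖z + (Λ : ℂ)‖ ≤ 2 * Λ + Λ / 2 := by
    refine le_trans (Real.log_le_self (norm_nonneg _)) h6
  have h8 : Real.log (1 / ‖z - (Λ : ℂ)‖) = -Real.log ‖z - (Λ : ℂ)‖ := by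
    rw [one_div, Real.log_inv]
  rw [h8]
  have m5 := mul_le_mul_of_nonneg_left h5 hz
  have m7 := mul_le_mul_of_nonneg_left h7 hz
  have key : (z - (Λ : ℂ)).re * (z - (Λ : ℂ)).arg + z.im * Real.log ‖z - (Λ : ℂ)‖ +
      ((z + (Λ : ℂ)).re * (z + (Λ : ℂ)).arg + z.im * Real.log ‖z + (Λ : ℂ)‖) -
      2 * (z.re * z.arg + z.im * Real.log ‖z‖) ≤
      z.im * (Real.log ‖z - (Λ : ℂ)‖ + (2 + 2 * Λ + Λ / 2 + 2 * |Real.log (Λ / 2)|)) := by
    nlinarith
  have := mul_le_mul_of_nonneg_left key (by positivity : 0 ≤ 1 / Real.pi)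
  have e1 : z.im / Real.pi * (-Real.log ‖z - (Λ : ℂ)‖ -
      (2 + 2 * Λ + Λ / 2 + 2 * |Real.log (Λ / 2)|)) = -(1 / Real.pi *
      (z.im * (Real.log ‖z - (Λ : ℂ)‖ + (2 + 2 * Λ + Λ / 2 + 2 * |Real.log (Λ / 2)|)))) := by
    ring
  rw [e1]
  linarith

end Pool.Agent.W721.SW
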